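import Pool.Agent.Helper50.BL.Stmts
import Pool.Agent.Helper50.BL.Base

/-!
# MP_e8ee11_co: module QPC (a set of polymers from its data)
-/

namespace Pool.Agent.Helper50.BL

open Finset
open scoped Classical

noncomputable section

/-- the graph of the nonzero values of `r` -/
def qpc_gr {J : Type} [Fintype J] (r : J → ℤ) : Finset (J × ℤ) :=
  (univ.filter (fun i => r i ≠ 0)).map
    ⟨fun i => (i, r i), fun _ _ h => congrArg Prod.fst h⟩

theorem qpc_sum {J M : Type} [Fintype J] [AddCommMonoid M] (r : J → ℤ) (g : J × ℤ → M) :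
    ∑ p ∈ qpc_gr r, g p = ∑ i ∈ univ.filter (fun i => r i ≠ 0), g (i, r i) := by
  unfold qpc_gr
  rw [Finset.sum_map]
  rfl

theorem qpc_val {J : Type} [Fintype J] [DecidableEq J] (r : J → ℤ) (i : J) :
    ∑ p ∈ qpc_gr r, (if p.1 = i then p.2 else 0) = r i := by
  rw [qpc_sum r (fun p => if p.1 = i then p.2 else 0)]
  rw [Finset.sum_filter]
  rw [Finset.sum_eq_single i]
  · by_cases h : r i = 0
    · simp [h]
    · simp [h]
  · intro j _ hj
    simp [hj]
  · intro h
    exact absurd (mem_univ i) h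

theorem qpc_cst {J : Type} [Fintype J] (κ : ℝ) (r : J → ℤ) :
    ∑ p ∈ qpc_gr r, cst κ p.2 = ∑ i, cst κ (r i) := by
  rw [qpc_sum r (fun p => cst κ p.2)]
  rw [Finset.sum_filter]
  refine Finset.sum_congr rfl fun i _ => ?_
  by_cases h : r i = 0
  · simp [h, cst]
  · simp [h]

theorem st_QPC : ST_QPC := by
  intro V J _ _ _ _ N κ F r c
  refine ⟨F.disjSum ((qpc_gr r).disjSum (qpc_gr c)), ?_, ?_, ?_, ?_⟩
  · intro x
    rw [Finset.sum_disjSum, Finset.sum_disjSum]
    simp [pΦ]
  · intro i
    rw [Finset.sum_disjSum, Finset.sum_disjSum]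
    simp only [pr, Finset.sum_const_zero, zero_add, add_zero]
    convert qpc_val r i
  · intro j
    rw [Finset.sum_disjSum, Finset.sum_disjSum]
    simp only [pc, Finset.sum_const_zero, zero_add, add_zero]
    convert qpc_val c j
  · rw [Finset.sum_disjSum, Finset.sum_disjSum]
    simp only [pcost]
    rw [qpc_cst, qpc_cst, add_assoc]

end

end Pool.Agent.Helper50.BL
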